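import Pool.Agent.Helper60.HB.Skel

set_option autoImplicit false

/-! # Lower bound for the auxiliary function at the points `k / 2 ^ (J + 1)` -/

open NumberField

namespace Pool.Agent.Helper33.HB

open Pool.Agent.Helper60.HB

lemma LOW_EX_add {n : ℕ} (l : Fin n → ℂ) (μ ν : Fin n → ℤ) (z : ℂ) :
    EX l (μ + ν) z = EX l μ z * EX l ν z := by
  unfold EX LS
  rw [← Complex.exp_add]
  congr 1
  simp only [Pi.add_apply, Int.cast_add, add_mul, Finset.sum_add_distrib, mul_add]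

lemma LOW_EX_pow {n : ℕ} (l : Fin n → ℂ) (μ : Fin n → ℤ) (z : ℂ) (k : ℕ) :
    EX l μ z ^ k = EX l μ (k * z) := by
  unfold EX
  rw [← Complex.exp_nat_mul, mul_assoc]

lemma LOW_EX_nat {n : ℕ} {K : Type} [Field K] [NumberField K] (D : BData n K)
    (μ : Fin n → ℤ) (k : ℕ) :
    EX D.l μ (k : ℂ) = D.σ (∏ i, D.α i ^ (μ i * k)) := by
  unfold EX LS
  rw [Finset.mul_sum, Complex.exp_sum, map_prod]
  refine Finset.prod_congr rfl (fun i _ => ?_)
  rw [map_zpow₀, ← D.exp_l i, ← Complex.exp_int_mul]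
  congr 1
  push_cast
  ring

lemma LOW_int {K : Type} [Field K] [NumberField K] (q : ℕ) (a : K)
    (h1 : IsIntegral ℤ ((q : K) * a)) (h2 : IsIntegral ℤ ((q : K) * a⁻¹)) (M : ℕ) (e : ℤ)
    (he : |e| ≤ M) : IsIntegral ℤ ((q : K) ^ M * a ^ e) := by
  have hq : IsIntegral ℤ (q : K) := by
    have : (q : K) = algebraMap ℤ K (q : ℤ) := by simp
    rw [this]
    exact isIntegral_algebraMap
  rcases Int.eq_nat_or_neg e with ⟨j, rfl | rfl⟩
  · have hj : j ≤ M := by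
      have : |(j : ℤ)| = j := abs_of_nonneg (by positivity)
      rw [this] at he
      exact_mod_cast he
    have : (q : K) ^ M * a ^ (j : ℤ) = (q : K) ^ (M - j) * ((q : K) * a) ^ j := by
      rw [mul_pow, ← mul_assoc, ← pow_add, Nat.sub_add_cancel hj, zpow_natCast]
    rw [this]
    exact (hq.pow _).mul (h1.pow _)
  · have hj : j ≤ M := by
      have : |(-(j : ℤ))| = j := by rw [abs_neg]; exact abs_of_nonneg (by positivity)
      rw [this] at he
      exact_mod_cast he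
    have : (q : K) ^ M * a ^ (-(j : ℤ)) = (q : K) ^ (M - j) * ((q : K) * a⁻¹) ^ j := by
      rw [mul_pow, ← mul_assoc, ← pow_add, Nat.sub_add_cancel hj, zpow_neg, zpow_natCast, inv_pow]
    rw [this]
    exact (hq.pow _).mul (h2.pow _)

lemma LOW_norm {K : Type} [Field K] [NumberField K] (τ : K →+* ℂ) (a : K) (A : ℝ) (ha : a ≠ 0)
    (h : |Real.log ‖τ a‖| ≤ A) (e : ℤ) : ‖τ (a ^ e)‖ ≤ Real.exp (|(e : ℝ)| * A) := by
  have hτ : 0 < ‖τ a‖ := by
    rw [norm_pos_iff]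
    exact fun h0 => ha ((map_eq_zero τ).1 h0)
  rw [map_zpow₀, norm_zpow]
  have h1 : ‖τ a‖ ^ e = Real.exp (e * Real.log ‖τ a‖) := by
    rw [mul_comm, Real.exp_mul, Real.exp_log hτ, Real.rpow_intCast]
  rw [h1]
  apply Real.exp_le_exp.2
  calc (e : ℝ) * Real.log ‖τ a‖ ≤ |(e : ℝ) * Real.log ‖τ a‖| := le_abs_self _
    _ = |(e : ℝ)| * |Real.log ‖τ a‖| := abs_mul _ _
    _ ≤ |(e : ℝ)| * A := mul_le_mul_of_nonneg_left h (abs_nonneg _)

theorem st_LOW (hHB : ST_HB) (hDEG : ST_DEG) (hLIOU : ST_LIOU) (hGENS : ST_GENS)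
    (hCJB : ST_CJB) : Pool.Agent.Helper60.HB.ST_LOW := by
  intro n K _ _ D L Lr μ0 J S c C1 k hL hμ0 hC1 hcC hk hne
  classical
  -- the common denominators
  have hq : ∀ i, ∃ q : ℕ, 1 ≤ q ∧ Real.log q ≤ 2 * D.A i ∧
      IsIntegral ℤ ((q : K) * D.α i) ∧ IsIntegral ℤ ((q : K) * (D.α i)⁻¹) := by
    intro i
    obtain ⟨_, q, h1, h2, h3, h4⟩ := hHB K (D.α i) (D.α_ne i)
    exact ⟨q, h1, h2.trans (by linarith [D.h_le i]), h3, h4⟩
  choose q hq1 hq2 hq3 hq4 using hq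
  have hτ : ∀ i (τ : K →+* ℂ), |Real.log ‖τ (D.α i)‖| ≤ D.A i := fun i τ =>
    ((hHB K (D.α i) (D.α_ne i)).1 τ).trans (D.h_le i)
  have hA0 : ∀ i, 0 ≤ D.A i := fun i => zero_le_one.trans (D.one_le_A i)
  have hnLr : 0 ≤ (n : ℝ) * Lr := by
    rcases Nat.eq_zero_or_pos n with h | h
    · subst h; simp
    · have := hL ⟨0, h⟩
      have h2 : 0 ≤ (L ⟨0, h⟩ : ℝ) * D.A ⟨0, h⟩ := mul_nonneg (by positivity) (hA0 _)
      exact mul_nonneg (by positivity) (h2.trans this)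
  have hsumLA : ∑ i, (L i : ℝ) * D.A i ≤ n * Lr := by
    calc ∑ i, (L i : ℝ) * D.A i ≤ ∑ _i : Fin n, Lr := Finset.sum_le_sum (fun i _ => hL i)
      _ = n * Lr := by simp
  set Q : ℕ := ∏ i, q i ^ (L i * S) with hQdef
  have hQ1 : 1 ≤ Q := by
    rw [hQdef]
    exact Finset.one_le_prod' (fun i _ => Nat.one_le_pow _ _ (hq1 i))
  have hQ0 : (0 : ℝ) < (Q : ℝ) := by exact_mod_cast hQ1
  have hlogQ : Real.log Q ≤ 2 * n * Lr * S := by
    have h1 : Real.log (Q : ℝ) = ∑ i, ((L i * S : ℕ) : ℝ) * Real.log (q i) := by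
      rw [hQdef]
      push_cast
      rw [Real.log_prod]
      · refine Finset.sum_congr rfl (fun i _ => ?_)
        rw [Real.log_pow]
        push_cast
        ring
      · intro i _
        have := hq1 i
        positivity
    rw [h1]
    calc ∑ i, ((L i * S : ℕ) : ℝ) * Real.log (q i)
        ≤ ∑ i, 2 * S * ((L i : ℝ) * D.A i) := by
          refine Finset.sum_le_sum (fun i _ => ?_)
          have h2 : ((L i * S : ℕ) : ℝ) * Real.log (q i) ≤ ((L i * S : ℕ) : ℝ) * (2 * D.A i) :=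
            mul_le_mul_of_nonneg_left (hq2 i) (by positivity)
          refine h2.trans (le_of_eq ?_)
          push_cast
          ring
      _ = 2 * S * ∑ i, (L i : ℝ) * D.A i := by rw [Finset.mul_sum]
      _ ≤ 2 * S * (n * Lr) := mul_le_mul_of_nonneg_left hsumLA (by positivity)
      _ = 2 * n * Lr * S := by ring
  -- members of the box
  have hbox : ∀ μ ∈ BX L, ∀ i, 0 ≤ μ i ∧ μ i ≤ L i := by
    intro μ hμ i
    unfold BX at hμ
    rw [Fintype.mem_piFinset] at hμ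
    exact Finset.mem_Icc.1 (hμ i)
  have hSU : ∀ μ ∈ SU D L μ0 J, μ ∈ BX L ∧ EX D.l (μ - μ0) (1 / 2 ^ J) ∈ D.σ.fieldRange := by
    intro μ hμ
    unfold SU at hμ
    rw [Finset.mem_filter] at hμ
    exact hμ
  set z : ℂ := (k : ℂ) / 2 ^ (J + 1) with hz
  have hkS : (k : ℝ) ≤ 2 ^ (J + 1) * S := by exact_mod_cast hk
  have hzn : ‖z‖ ≤ S := by
    rw [hz, norm_div, norm_pow, Complex.norm_natCast]
    have : ‖(2 : ℂ)‖ = 2 := by simp
    rw [this, div_le_iff₀ (by positivity)]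
    linarith
  set x : (Fin n → ℤ) → ℂ := fun μ => EX D.l (μ - μ0) (1 / 2 ^ (J + 1)) with hx
  have hEX : ∀ μ, EX D.l μ z = EX D.l μ0 z * x μ ^ k := by
    intro μ
    have h1 : μ = μ0 + (μ - μ0) := by abel
    conv_lhs => rw [h1]
    rw [LOW_EX_add, hx]
    simp only
    rw [LOW_EX_pow]
    congr 2
    rw [hz]
    ring
  set ψ : ℂ := ∑ μ ∈ SU D L μ0 J, (c μ : ℂ) * x μ ^ k with hψ
  have hsum : (∑ μ ∈ SU D L μ0 J, (c μ : ℂ) * EX D.l μ z) = EX D.l μ0 z * ψ := by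
    rw [hψ, Finset.mul_sum]
    refine Finset.sum_congr rfl (fun μ _ => ?_)
    rw [hEX μ]
    ring
  rw [hsum] at hne ⊢
  have hψ0 : ψ ≠ 0 := right_ne_zero_of_mul hne
  -- the powers
  set N : ℕ := 2 ^ (J + 1) with hN
  have hN1 : 1 ≤ N := Nat.one_le_two_pow
  set κ : (Fin n → ℤ) → K := fun μ => (Q : K) ^ N * ∏ i, D.α i ^ ((μ - μ0) i * k) with hκ
  set w : (Fin n → ℤ) → ℂ := fun μ => (Q : ℂ) * x μ ^ k with hw
  have hwκ : ∀ μ, w μ ^ N = D.σ (κ μ) := by
    intro μ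
    rw [hw, hκ]
    simp only
    rw [mul_pow, map_mul, map_pow, map_natCast, ← LOW_EX_nat, hx]
    simp only
    rw [LOW_EX_pow, LOW_EX_pow]
    congr 2
    rw [hN]
    push_cast
    field_simp
  have hexp : ∀ μ ∈ BX L, ∀ i, |(μ - μ0) i * (k : ℤ)| ≤ ((L i * S * N : ℕ) : ℤ) := by
    intro μ hμ i
    obtain ⟨h1, h2⟩ := hbox μ hμ i
    obtain ⟨h3, h4⟩ := hbox μ0 hμ0 i
    have h5 : |(μ - μ0) i| ≤ (L i : ℤ) := by
      rw [Pi.sub_apply, abs_le]
      constructor <;> linarith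
    rw [abs_mul]
    have h6 : |(k : ℤ)| = k := abs_of_nonneg (by positivity)
    rw [h6]
    have h7 : (k : ℤ) ≤ (N : ℤ) * S := by exact_mod_cast hk
    calc |(μ - μ0) i| * (k : ℤ) ≤ (L i : ℤ) * ((N : ℤ) * S) :=
          mul_le_mul h5 h7 (by positivity) (by positivity)
      _ = ((L i * S * N : ℕ) : ℤ) := by push_cast; ring
  have hκint : ∀ μ ∈ BX L, IsIntegral ℤ (κ μ) := by
    intro μ hμ
    have h1 : κ μ = ∏ i, ((q i : K) ^ (L i * S * N) * D.α i ^ ((μ - μ0) i * (k : ℤ))) := by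
      rw [hκ]
      simp only
      rw [Finset.prod_mul_distrib, hQdef]
      congr 1
      push_cast
      rw [← Finset.prod_pow]
      refine Finset.prod_congr rfl (fun i _ => ?_)
      rw [← pow_mul]
    rw [h1]
    exact IsIntegral.prod _ (fun i _ => LOW_int (q i) (D.α i) (hq3 i) (hq4 i) _ _ (hexp μ hμ i))
  have hwint : ∀ μ ∈ BX L, IsIntegral ℤ (w μ) := by
    intro μ hμ
    apply IsIntegral.of_pow (n := N) hN1
    rw [hwκ]
    exact (hκint μ hμ).map (D.σ.toIntAlgHom)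
  -- the conjugates
  set V : ℝ := Q * Real.exp (n * Lr * S) with hV
  have hV0 : 0 ≤ V := by positivity
  have hκn : ∀ μ ∈ BX L, ∀ τ : K →+* ℂ, ‖τ (κ μ)‖ ≤ V ^ N := by
    intro μ hμ τ
    rw [hκ]
    simp only
    rw [map_mul, map_pow, map_natCast, map_prod, norm_mul, norm_pow, Complex.norm_natCast,
      norm_prod, hV, mul_pow]
    refine mul_le_mul_of_nonneg_left ?_ (by positivity)
    calc ∏ i, ‖τ (D.α i ^ ((μ - μ0) i * (k : ℤ)))‖
        ≤ ∏ i, Real.exp (|(((μ - μ0) i * (k : ℤ) : ℤ) : ℝ)| * D.A i) :=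
          Finset.prod_le_prod (fun i _ => norm_nonneg _)
            (fun i _ => LOW_norm τ (D.α i) (D.A i) (D.α_ne i) (hτ i τ) _)
      _ = Real.exp (∑ i, |(((μ - μ0) i * (k : ℤ) : ℤ) : ℝ)| * D.A i) := by
          rw [Real.exp_sum]
      _ ≤ Real.exp (∑ i, ((S * N : ℕ) : ℝ) * ((L i : ℝ) * D.A i)) := by
          apply Real.exp_le_exp.2
          refine Finset.sum_le_sum (fun i _ => ?_)
          have h1 : |(((μ - μ0) i * (k : ℤ) : ℤ) : ℝ)| ≤ ((L i * S * N : ℕ) : ℝ) := by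
            have := hexp μ hμ i
            exact_mod_cast this
          calc |(((μ - μ0) i * (k : ℤ) : ℤ) : ℝ)| * D.A i ≤ ((L i * S * N : ℕ) : ℝ) * D.A i :=
                mul_le_mul_of_nonneg_right h1 (hA0 i)
            _ = ((S * N : ℕ) : ℝ) * ((L i : ℝ) * D.A i) := by push_cast; ring
      _ ≤ Real.exp ((N : ℝ) * (n * Lr * S)) := by
          apply Real.exp_le_exp.2
          rw [← Finset.mul_sum]
          calc ((S * N : ℕ) : ℝ) * ∑ i, (L i : ℝ) * D.A i ≤ ((S * N : ℕ) : ℝ) * (n * Lr) :=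
                mul_le_mul_of_nonneg_left hsumLA (by positivity)
            _ = (N : ℝ) * (n * Lr * S) := by push_cast; ring
      _ = Real.exp (n * Lr * S) ^ N := by rw [← Real.exp_nat_mul]
  have hQψ : (Q : ℂ) * ψ = ∑ μ ∈ SU D L μ0 J, (c μ : ℂ) * w μ := by
    rw [hψ, Finset.mul_sum]
    refine Finset.sum_congr rfl (fun μ _ => ?_)
    rw [hw]
    ring
  set M : ℝ := C1 * Real.exp (3 * n * Lr * S) with hM
  have hnS : 0 ≤ (n : ℝ) * Lr * S := mul_nonneg hnLr (by positivity)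
  have hVM : V ≤ Real.exp (3 * n * Lr * S) := by
    have h1 : (Q : ℝ) ≤ Real.exp (2 * n * Lr * S) := by
      rw [← Real.exp_log hQ0]
      exact Real.exp_le_exp.2 hlogQ
    calc V ≤ Real.exp (2 * n * Lr * S) * Real.exp (n * Lr * S) :=
          mul_le_mul_of_nonneg_right h1 (Real.exp_pos _).le
      _ = Real.exp (3 * n * Lr * S) := by rw [← Real.exp_add]; congr 1; ring
  have hM1 : 1 ≤ M := by
    have h1 : 1 ≤ Real.exp (3 * n * Lr * S) := Real.one_le_exp (by nlinarith)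
    rw [hM]
    nlinarith
  have hconj : ∀ z : ℂ, Polynomial.aeval z (minpoly ℚ ((Q : ℂ) * ψ)) = 0 → ‖z‖ ≤ M := by
    intro z' hz'
    rw [hQψ] at hz'
    have h1 := hCJB K D.σ (Fin n → ℤ) (SU D L μ0 J) c w κ N V hN1 hV0 (fun μ _ => hwκ μ)
      (fun μ hμ τ => hκn μ (hSU μ hμ).1 τ) z' hz'
    refine h1.trans ?_
    rw [hM]
    exact mul_le_mul hcC hVM hV0 (zero_le_one.trans hC1)
  have hint : IsIntegral ℤ ((Q : ℂ) * ψ) := by
    rw [hQψ]
    refine IsIntegral.sum _ (fun μ hμ => ?_)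
    refine IsIntegral.mul ?_ (hwint μ (hSU μ hμ).1)
    have : ((c μ : ℤ) : ℂ) = algebraMap ℤ ℂ (c μ) := by simp
    rw [this]
    exact isIntegral_algebraMap
  obtain ⟨g, hg1, hg2⟩ := hGENS n K D J
  have hmem : (Q : ℂ) * ψ ∈ Subfield.closure ((D.σ.fieldRange : Set ℂ) ∪ Set.range g) := by
    refine Subfield.mul_mem _ (natCast_mem _ Q) ?_
    rw [hψ]
    refine Subfield.sum_mem _ (fun μ hμ => ?_)
    refine Subfield.mul_mem _ (intCast_mem _ (c μ)) (Subfield.pow_mem _ ?_ k)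
    exact hg2 (μ - μ0) (hSU μ hμ).2
  obtain ⟨_, hdeg⟩ := hDEG n K D.σ g hg1 ((Q : ℂ) * ψ) hmem
  set d : ℕ := 2 ^ n * Module.finrank ℚ K with hd
  have hd1 : 1 ≤ d := by
    have h1 : 0 < Module.finrank ℚ K := Module.finrank_pos
    have h2 : 0 < 2 ^ n := by positivity
    exact Nat.mul_pos h2 h1
  have hQ0' : (Q : ℂ) ≠ 0 := by exact_mod_cast (by omega : Q ≠ 0)
  have hliou := hLIOU ((Q : ℂ) * ψ) d M hint (mul_ne_zero hQ0' hψ0) hd1 hdeg hM1 hconj
  -- lower bound for the exponential factor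
  have hLS : ‖LS D.l μ0‖ ≤ n * Lr := by
    unfold LS
    calc ‖∑ i, (μ0 i : ℂ) * D.l i‖ ≤ ∑ i, ‖(μ0 i : ℂ) * D.l i‖ := norm_sum_le _ _
      _ ≤ ∑ i, (L i : ℝ) * D.A i := by
          refine Finset.sum_le_sum (fun i _ => ?_)
          rw [norm_mul]
          obtain ⟨h3, h4⟩ := hbox μ0 hμ0 i
          have h5 : ‖((μ0 i : ℤ) : ℂ)‖ ≤ (L i : ℝ) := by
            rw [Complex.norm_intCast]
            have : |((μ0 i : ℤ) : ℝ)| = (μ0 i : ℝ) := abs_of_nonneg (by exact_mod_cast h3)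
            rw [this]
            exact_mod_cast h4
          exact mul_le_mul h5 (D.l_le i) (norm_nonneg _) (by positivity)
      _ ≤ n * Lr := hsumLA
  have hE0 : Real.exp (-(n * Lr * S)) ≤ ‖EX D.l μ0 z‖ := by
    unfold EX
    rw [Complex.norm_exp]
    apply Real.exp_le_exp.2
    have h1 : ‖z * LS D.l μ0‖ ≤ n * Lr * S := by
      rw [norm_mul]
      calc ‖z‖ * ‖LS D.l μ0‖ ≤ S * (n * Lr) :=
            mul_le_mul hzn hLS (norm_nonneg _) (by positivity)
        _ = n * Lr * S := by ring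
    have h2 := (abs_le.1 ((Complex.abs_re_le_norm (z * LS D.l μ0)).trans h1)).1
    exact h2
  -- lower bound for `ψ`
  have hMexp : M = Real.exp (Real.log C1 + 3 * n * Lr * S) := by
    rw [Real.exp_add, Real.exp_log (by linarith)]
  have hT0 : 0 ≤ Real.log C1 + 3 * n * Lr * S := by
    have := Real.log_nonneg hC1
    nlinarith
  have hψlow : Real.exp (-(2 * n * Lr * S) -
      ((d - 1 : ℕ) : ℝ) * (Real.log C1 + 3 * n * Lr * S)) ≤ ‖ψ‖ := by
    rw [norm_mul, Complex.norm_natCast] at hliou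
    have h1 : (Q : ℝ) ≤ Real.exp (2 * n * Lr * S) := by
      rw [← Real.exp_log hQ0]
      exact Real.exp_le_exp.2 hlogQ
    have h2 : M ^ (d - 1) = Real.exp (((d - 1 : ℕ) : ℝ) * (Real.log C1 + 3 * n * Lr * S)) := by
      rw [hMexp, ← Real.exp_nat_mul]
    rw [h2] at hliou
    have h3 : 1 ≤ Real.exp (2 * n * Lr * S) * ‖ψ‖ *
        Real.exp (((d - 1 : ℕ) : ℝ) * (Real.log C1 + 3 * n * Lr * S)) := by
      refine hliou.trans ?_
      refine mul_le_mul_of_nonneg_right ?_ (Real.exp_pos _).le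
      exact mul_le_mul_of_nonneg_right h1 (norm_nonneg _)
    have h4 : Real.exp (-(2 * n * Lr * S) -
        ((d - 1 : ℕ) : ℝ) * (Real.log C1 + 3 * n * Lr * S)) =
        (Real.exp (2 * n * Lr * S) *
        Real.exp (((d - 1 : ℕ) : ℝ) * (Real.log C1 + 3 * n * Lr * S)))⁻¹ := by
      rw [← Real.exp_add, ← Real.exp_neg]
      congr 1
      ring
    rw [h4, inv_le_iff_one_le_mul₀ (by positivity)]
    calc (1 : ℝ) ≤ _ := h3
      _ = _ := by ring
  rw [norm_mul]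
  calc Real.exp (-((d + 1 : ℕ) : ℝ) * (Real.log C1 + 3 * n * Lr * S))
      ≤ Real.exp (-(n * Lr * S)) * Real.exp (-(2 * n * Lr * S) -
      ((d - 1 : ℕ) : ℝ) * (Real.log C1 + 3 * n * Lr * S)) := by
        rw [← Real.exp_add]
        apply Real.exp_le_exp.2
        have h5 : ((d - 1 : ℕ) : ℝ) = (d : ℝ) - 1 := by
          rw [Nat.cast_sub hd1]; simp
        rw [h5]
        push_cast
        have h6 := Real.log_nonneg hC1
        nlinarith
    _ ≤ ‖EX D.l μ0 z‖ * ‖ψ‖ := mul_le_mul hE0 hψlow (Real.exp_pos _).le (norm_nonneg _)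

end Pool.Agent.Helper33.HB
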